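import Pool.Agent.Run7.h105.PC.Defs

/-!
# Project PC (helper105), piece PERT, by helper216
-/

set_option autoImplicit false

open Filter Topology Set MeasureTheory
open scoped ENNReal

namespace Run7.h216.PC

open Pool.Agent.Run7.h105.PC

theorem neg_rpow_anti {s a b : ℝ} (hs : 0 < s) (h : a ≤ b) :
    (ENNReal.ofReal b) ^ (-s) ≤ (ENNReal.ofReal a) ^ (-s) := by
  rw [ENNReal.rpow_neg, ENNReal.rpow_neg]
  exact ENNReal.inv_le_inv.2 (ENNReal.rpow_le_rpow (ENNReal.ofReal_le_ofReal h) hs.le)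

theorem neg_rpow_mul {s a b : ℝ} (ha : 0 < a) (hb : 0 < b) :
    (ENNReal.ofReal (a * b)) ^ (-s) = (ENNReal.ofReal a) ^ (-s) * (ENNReal.ofReal b) ^ (-s) := by
  rw [ENNReal.ofReal_mul ha.le, ENNReal.mul_rpow_of_ne_zero]
  · exact (ENNReal.ofReal_pos.2 ha).ne'
  · exact (ENNReal.ofReal_pos.2 hb).ne'

/-- **PERT** -/
theorem t_PERT : S_PERT := by
  intro s θ δ hs hθ hθ1 hδ X d d' hd hdd h
  by_cases hx : ∃ x ∈ X, d x < θ * δ
  · obtain ⟨x, hxX, hlt⟩ := hx
    have h1 : d' x ≤ (1 + θ) * δ := by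
      have h2 := hdd x hxX
      have h3 : θ * δ ≤ δ := by nlinarith
      have h4 : θ ^ 2 * δ ≤ θ * δ := by nlinarith [mul_pos hθ hδ]
      linarith
    exact (neg_rpow_anti hs h1).trans (Multiset.single_le_sum (fun _ _ => bot_le) _
      (Multiset.mem_map_of_mem _ hxX))
  · push Not at hx
    have h1 : ∀ x ∈ X, (ENNReal.ofReal (1 + θ)) ^ (-s) * (ENNReal.ofReal (d x)) ^ (-s) ≤
        (ENNReal.ofReal (d' x)) ^ (-s) := by
      intro x hxX
      have h2 := hx x hxX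
      have h3 : 0 < d x := lt_of_lt_of_le (mul_pos hθ hδ) h2
      rw [← neg_rpow_mul (by linarith) h3]
      refine neg_rpow_anti hs ((hdd x hxX).trans ?_)
      nlinarith [mul_le_mul_of_nonneg_left h2 hθ.le]
    rw [neg_rpow_mul (by linarith) hδ]
    calc (ENNReal.ofReal (1 + θ)) ^ (-s) * (ENNReal.ofReal δ) ^ (-s)
        ≤ (ENNReal.ofReal (1 + θ)) ^ (-s) *
          (X.map fun x => (ENNReal.ofReal (d x)) ^ (-s)).sum := by gcongr
      _ = (X.map fun x => (ENNReal.ofReal (1 + θ)) ^ (-s) * (ENNReal.ofReal (d x)) ^ (-s)).sum :=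
          Multiset.sum_map_mul_left.symm
      _ ≤ _ := Multiset.sum_map_le_sum_map _ _ h1

end Run7.h216.PC
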